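import Pool.Agent.Helper53.SL.St2
import Pool.Agent.Helper1.SL.M_SUP

/-! # Project SM (MP_9062f4_nt), module SPS -/

set_option autoImplicit false

open Polynomial Filter Topology MeasureTheory Set

namespace Pool.Agent.Helper34.SLM

open Pool.Agent.Helper53.SL
open Pool.Agent.Helper1.SL (sum_anti_le anti_facts sum_snd_le sum_fst_le)

/-- tails of a convergent series of inverse powers -/
theorem tail_sum (q δ : ℝ) (hq : 1 < q) (hδ : 0 < δ) : ∃ E : ℕ, 1 ≤ E ∧
    ∀ t : Finset ℕ, (∀ e ∈ t, E ≤ e) → ∑ e ∈ t, ((e : ℝ) ^ q)⁻¹ ≤ δ := by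
  have h := Real.summable_nat_rpow_inv.mpr hq
  obtain ⟨s, hs⟩ := summable_iff_vanishing_norm.1 h δ hδ
  refine ⟨s.sup id + 1, by omega, fun t ht => ?_⟩
  have hd : Disjoint t s := by
    rw [Finset.disjoint_left]
    intro e he hes
    have h1 := ht e he
    have h2 : e ≤ s.sup id := Finset.le_sup (f := id) hes
    omega
  have h3 := hs t hd
  exact (le_abs_self _).trans h3.le

/-- Young's inequality for one term -/
theorem young_term (m : ℕ) (hm : 1 ≤ m) (q η x e : ℝ) (hpq : ((2 * m : ℕ) : ℝ).HolderConjugate q)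
    (hη : 0 < η) (he : 0 < e) : |x| / e ≤ η ^ (2 * m) * x ^ (2 * m) + (η ^ q)⁻¹ * (e ^ q)⁻¹ := by
  have hq1 : 1 ≤ q := hpq.symm.lt.le
  have hp1 : (1 : ℝ) ≤ ((2 * m : ℕ) : ℝ) := by exact_mod_cast (by omega : 1 ≤ 2 * m)
  have h := Real.young_inequality_of_nonneg (a := η * |x|) (b := (η * e)⁻¹) (by positivity)
    (by positivity) hpq
  have e1 : η * |x| * (η * e)⁻¹ = |x| / e := by field_simp
  have e2 : (η * |x|) ^ (((2 * m : ℕ) : ℝ)) = η ^ (2 * m) * x ^ (2 * m) := by
    rw [Real.rpow_natCast, mul_pow, (even_two_mul m).pow_abs]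
  have e3 : ((η * e)⁻¹) ^ q = (η ^ q)⁻¹ * (e ^ q)⁻¹ := by
    rw [Real.inv_rpow (by positivity), Real.mul_rpow hη.le he.le, mul_inv]
  rw [e1, e2, e3] at h
  refine h.trans (add_le_add ?_ ?_)
  · exact div_le_self (mul_nonneg (by positivity) ((even_two_mul m).pow_nonneg x)) hp1
  · exact div_le_self (by positivity) hq1

/-- module SPS -/
theorem hSps : StSps := by
  intro m V0 hm
  obtain ⟨V, hVd⟩ : ∃ V : ℝ, V = |V0| := ⟨_, rfl⟩
  have hV : 0 ≤ V := by rw [hVd]; exact abs_nonneg _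
  obtain ⟨p, hp⟩ : ∃ p : ℕ, p = 2 * m := ⟨_, rfl⟩
  have hp2 : 2 ≤ p := by omega
  have hpe : Even p := by rw [hp]; exact even_two_mul m
  have hp1 : (1 : ℝ) < ((2 * m : ℕ) : ℝ) := by exact_mod_cast (by omega : 1 < 2 * m)
  obtain ⟨q, hq⟩ : ∃ q : ℝ, q = Real.conjExponent ((2 * m : ℕ) : ℝ) := ⟨_, rfl⟩
  have hpq : ((2 * m : ℕ) : ℝ).HolderConjugate q := by
    rw [hq]
    exact Real.HolderConjugate.conjExponent hp1
  have hq1 : 1 < q := hpq.symm.lt
  obtain ⟨η, hη⟩ : ∃ η : ℝ, η = 1 / (8 * (V + 1)) := ⟨_, rfl⟩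
  have hη0 : 0 < η := by rw [hη]; positivity
  have hη1 : η ≤ 1 := by
    rw [hη, div_le_iff₀ (by positivity)]
    linarith
  have hηV : η ^ p * V ≤ 1 / 8 := by
    have h1 : η ^ p ≤ η := pow_le_of_le_one hη0.le hη1 (by omega)
    calc η ^ p * V ≤ η * V := mul_le_mul_of_nonneg_right h1 hV
      _ ≤ 1 / 8 := by
        rw [hη, div_mul_eq_mul_div, one_mul, div_le_div_iff₀ (by positivity) (by norm_num)]
        linarith
  have hηq : 0 < η ^ q := Real.rpow_pos_of_pos hη0 q
  obtain ⟨E, hE1, hE⟩ := tail_sum q (η ^ q / 8) hq1 (by positivity)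
  have hEpos : (1 : ℝ) ≤ E := by exact_mod_cast hE1
  obtain ⟨C0, hC0⟩ : ∃ C0 : ℝ, C0 = 2 ^ p * (E : ℝ) ^ p := ⟨_, rfl⟩
  have hC00 : 0 ≤ C0 := by rw [hC0]; positivity
  obtain ⟨S, hS⟩ : ∃ S : ℝ, S = C0 * E * V := ⟨_, rfl⟩
  have hS0 : 0 ≤ S := by rw [hS]; positivity
  refine ⟨2 ^ (p - 1) * (V + (S ^ 2) ^ (m - 1) * (S * S)), ?_⟩
  intro a v γ n1 ε hε H1 H2 H3 H4 H5
  rw [← hp] at H2 ⊢
  have hv0 : ∀ n, 0 ≤ v n ^ p := fun n => hpe.pow_nonneg _
  have H2' : ∀ N : ℕ, ∑ m ∈ Finset.Ico 1 N, v m ^ p ≤ V := by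
    intro N
    refine le_trans ?_ ((H2 N).trans (by rw [hVd]; exact le_abs_self _))
    apply Finset.sum_le_sum_of_subset_of_nonneg
    · intro m hm
      rw [Finset.mem_Ico] at hm
      rw [Finset.mem_Icc]
      omega
    · intro m _ _
      exact hv0 m
  -- Moebius inversion
  have M1 := (ArithmeticFunction.sum_eq_iff_sum_mul_moebius_eq
    (f := fun d : ℕ => (d : ℝ) * a d) (g := fun n : ℕ => (n : ℝ) * (v n - γ n))).mp
      (fun n hn => H1 n hn)
  have hA : ∀ d : ℕ, 1 ≤ d → |(a d : ℝ)| ≤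
      ∑ x ∈ d.divisorsAntidiagonal, |v x.2| / x.1 + ∑ x ∈ d.divisorsAntidiagonal, |γ x.2| / x.1 := by
    intro d hd
    have hd0 : (0 : ℝ) < d := by exact_mod_cast hd
    have h1 := M1 d hd
    have h2 : |(d : ℝ) * a d| ≤ ∑ x ∈ d.divisorsAntidiagonal, (d : ℝ) * (|v x.2| / x.1 + |γ x.2| / x.1) := by
      rw [← h1]
      refine (Finset.abs_sum_le_sum_abs _ _).trans (Finset.sum_le_sum fun x hx => ?_)
      obtain ⟨h3, h4, h5, -, -⟩ := anti_facts hx
      have h6 : (0 : ℝ) < x.1 := by exact_mod_cast h3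
      have h7 : (d : ℝ) = x.1 * x.2 := by rw [← h5]; push_cast; ring
      have h8 : |((ArithmeticFunction.moebius x.1 : ℤ) : ℝ)| ≤ 1 := by
        have := ArithmeticFunction.abs_moebius_le_one (n := x.1)
        exact_mod_cast this
      rw [abs_mul, abs_mul, Nat.abs_cast]
      have h9 : (d : ℝ) * (|v x.2| / x.1 + |γ x.2| / x.1) = x.2 * (|v x.2| + |γ x.2|) := by
        rw [h7]
        field_simp
      rw [h9]
      have h10 : |v x.2 - γ x.2| ≤ |v x.2| + |γ x.2| := abs_sub _ _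
      calc |((ArithmeticFunction.moebius x.1 : ℤ) : ℝ)| * (x.2 * |v x.2 - γ x.2|)
          ≤ 1 * (x.2 * |v x.2 - γ x.2|) := mul_le_mul_of_nonneg_right h8 (by positivity)
        _ = x.2 * |v x.2 - γ x.2| := one_mul _
        _ ≤ x.2 * (|v x.2| + |γ x.2|) := mul_le_mul_of_nonneg_left h10 (by positivity)
    rw [← Finset.mul_sum, abs_mul, Nat.abs_cast, Finset.sum_add_distrib] at h2
    exact le_of_mul_le_mul_left h2 hd0
  -- the part of γ
  have hG : ∀ d : ℕ, 1 ≤ d → d < n1 → ∑ x ∈ d.divisorsAntidiagonal, |γ x.2| / x.1 ≤ 1 / 4 := by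
    intro d hd hdn
    have h1 : ∀ x ∈ d.divisorsAntidiagonal, |γ x.2| / x.1 ≤
        (if x.1 = 1 then (1 / 8 : ℝ) else 0) + ε * ((x.1 : ℝ))⁻¹ := by
      intro x hx
      obtain ⟨h3, h4, h5, h6, h7⟩ := anti_facts hx
      have h8 : (0 : ℝ) < x.1 := by exact_mod_cast h3
      by_cases h9 : x.1 = 1
      · rw [if_pos h9, h9]
        have h10 : x.2 = d := by rw [← h5, h9, one_mul]
        rw [h10]
        have := H3 d hd hdn
        push_cast
        have : 0 ≤ ε * (1 : ℝ)⁻¹ := by positivity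
        linarith [H3 d hd hdn]
      · rw [if_neg h9, zero_add, div_eq_mul_inv]
        apply mul_le_mul_of_nonneg_right _ (by positivity)
        apply H4 x.2 d h4 _ hdn
        rw [← h5]
        exact Nat.mul_le_mul_right _ (by omega)
    refine (Finset.sum_le_sum h1).trans ?_
    rw [Finset.sum_add_distrib]
    have h2 : ∑ x ∈ d.divisorsAntidiagonal, (if x.1 = 1 then (1 / 8 : ℝ) else 0) ≤ 1 / 8 := by
      refine (sum_fst_le d 0 _ (Finset.Subset.refl _) (fun m => if m = 1 then (1 / 8 : ℝ) else 0)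
        (fun m => by positivity) (fun x hx => (anti_facts hx).1)).trans ?_
      rw [Finset.sum_ite_eq']
      split_ifs <;> norm_num
    have h3 : ∑ x ∈ d.divisorsAntidiagonal, ε * ((x.1 : ℝ))⁻¹ ≤ 1 / 8 := by
      rw [← Finset.mul_sum]
      refine le_trans ?_ H5
      apply mul_le_mul_of_nonneg_left _ hε
      refine (sum_fst_le d 0 _ (Finset.Subset.refl _) (fun m => ((m : ℝ))⁻¹)
        (fun m => by positivity) (fun x hx => (anti_facts hx).1)).trans ?_
      have h4 : ∑ m ∈ Finset.Ioo 0 (d + 1), ((m : ℝ))⁻¹ = ((harmonic d : ℚ) : ℝ) := by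
        rw [harmonic_eq_sum_Icc]
        push_cast
        apply Finset.sum_congr _ (fun _ _ => rfl)
        ext m
        rw [Finset.mem_Ioo, Finset.mem_Icc]
        omega
      rw [h4]
      refine (harmonic_le_one_add_log d).trans ?_
      have h5 : Real.log d ≤ Real.log n1 :=
        Real.log_le_log (by exact_mod_cast hd) (by exact_mod_cast hdn.le)
      linarith
    linarith
  -- the integers
  have hB : ∀ d : ℕ, 1 ≤ d → d < n1 → |(a d : ℝ)| ^ p ≤
      ∑ x ∈ d.divisorsAntidiagonal, (if x.1 < E then C0 * v x.2 ^ p else 0) := by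
    intro d hd hdn
    obtain ⟨P, hP⟩ : ∃ P : ℝ, P = ∑ x ∈ d.divisorsAntidiagonal.filter (fun x => x.1 < E),
      |v x.2| / x.1 := ⟨_, rfl⟩
    obtain ⟨T, hT⟩ : ∃ T : ℝ, T = ∑ x ∈ d.divisorsAntidiagonal.filter (fun x => ¬ x.1 < E),
      |v x.2| / x.1 := ⟨_, rfl⟩
    have hP0 : 0 ≤ P := by rw [hP]; exact Finset.sum_nonneg fun x _ => by positivity
    have h1 : |(a d : ℝ)| ≤ P + T + 1 / 4 := by
      refine (hA d hd).trans ?_
      rw [← Finset.sum_filter_add_sum_filter_not d.divisorsAntidiagonal (fun x => x.1 < E), ← hP,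
        ← hT]
      linarith [hG d hd hdn]
    have h2 : T ≤ 1 / 4 := by
      have h3 : ∀ x ∈ d.divisorsAntidiagonal.filter (fun x => ¬ x.1 < E), |v x.2| / x.1 ≤
          η ^ p * v x.2 ^ p + (η ^ q)⁻¹ * ((x.1 : ℝ) ^ q)⁻¹ := by
        intro x hx
        have h4 := (anti_facts (Finset.filter_subset _ _ hx)).1
        have h5 : (0 : ℝ) < x.1 := by exact_mod_cast h4
        rw [hp]
        exact young_term m hm q η (v x.2) x.1 hpq hη0 h5
      rw [hT]
      refine (Finset.sum_le_sum h3).trans ?_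
      rw [Finset.sum_add_distrib, ← Finset.mul_sum, ← Finset.mul_sum]
      have h4 : ∑ x ∈ d.divisorsAntidiagonal.filter (fun x => ¬ x.1 < E), v x.2 ^ p ≤ V := by
        refine (sum_snd_le d (d + 1) _ (Finset.filter_subset _ _) (fun m => v m ^ p)
          hv0 ?_).trans (H2' (d + 1))
        intro x hx
        have := (anti_facts (Finset.filter_subset _ _ hx)).2.2.2.2
        omega
      have h5 : ∑ x ∈ d.divisorsAntidiagonal.filter (fun x => ¬ x.1 < E), ((x.1 : ℝ) ^ q)⁻¹ ≤
          η ^ q / 8 := by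
        refine (sum_fst_le d (E - 1) _ (Finset.filter_subset _ _) (fun e => ((e : ℝ) ^ q)⁻¹)
          (fun e => by positivity) ?_).trans (hE _ ?_)
        · intro x hx
          rw [Finset.mem_filter] at hx
          omega
        · intro e he
          rw [Finset.mem_Ioo] at he
          omega
      have h6 : (η ^ q)⁻¹ * ∑ x ∈ d.divisorsAntidiagonal.filter (fun x => ¬ x.1 < E),
          ((x.1 : ℝ) ^ q)⁻¹ ≤ 1 / 8 := by
        calc _ ≤ (η ^ q)⁻¹ * (η ^ q / 8) := mul_le_mul_of_nonneg_left h5 (by positivity)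
          _ = 1 / 8 := by field_simp
      have h7 := mul_le_mul_of_nonneg_left h4 (pow_nonneg hη0.le p)
      linarith
    have h3 : |(a d : ℝ)| ≤ 2 * P := by
      by_cases h0 : a d = 0
      · rw [h0]
        simp only [Int.cast_zero, abs_zero]
        linarith
      · have h4 : (1 : ℝ) ≤ |(a d : ℝ)| := by
          have := Int.one_le_abs h0
          exact_mod_cast this
        linarith
    have hcard : ((d.divisorsAntidiagonal.filter (fun x => x.1 < E)).card : ℝ) ≤ E := by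
      have h4 := sum_fst_le d 0 _ (Finset.filter_subset (fun x => x.1 < E) d.divisorsAntidiagonal)
        (fun e => if e < E then (1 : ℝ) else 0) (fun e => by positivity)
        (fun x hx => (anti_facts (Finset.filter_subset _ _ hx)).1)
      have h5 : ∑ x ∈ d.divisorsAntidiagonal.filter (fun x => x.1 < E),
          (if x.1 < E then (1 : ℝ) else 0) =
          ((d.divisorsAntidiagonal.filter (fun x => x.1 < E)).card : ℝ) := by
        rw [Finset.card_eq_sum_ones]
        push_cast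
        refine Finset.sum_congr rfl fun x hx => ?_
        rw [if_pos (Finset.mem_filter.1 hx).2]
      rw [h5] at h4
      refine h4.trans ?_
      rw [← Finset.sum_filter, Finset.sum_const, nsmul_eq_mul, mul_one]
      have h6 : ((Finset.Ioo 0 (d + 1)).filter fun e => e < E).card ≤ E := by
        calc ((Finset.Ioo 0 (d + 1)).filter fun e => e < E).card ≤ (Finset.range E).card := by
              apply Finset.card_le_card
              intro e he
              rw [Finset.mem_filter] at he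
              exact Finset.mem_range.mpr he.2
          _ = E := Finset.card_range E
      exact_mod_cast h6
    have h4 : P ^ p ≤ (E : ℝ) ^ p *
        ∑ x ∈ d.divisorsAntidiagonal.filter (fun x => x.1 < E), v x.2 ^ p := by
      have h5 : P ≤ ∑ x ∈ d.divisorsAntidiagonal.filter (fun x => x.1 < E), |v x.2| := by
        rw [hP]
        refine Finset.sum_le_sum fun x hx => ?_
        have h6 := (anti_facts (Finset.filter_subset _ _ hx)).1
        have h7 : (1 : ℝ) ≤ x.1 := by exact_mod_cast h6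
        exact div_le_self (abs_nonneg _) h7
      obtain ⟨k, hk⟩ : ∃ k : ℕ, p = k + 1 := ⟨p - 1, by omega⟩
      have h8 := pow_sum_le_card_mul_sum_pow
        (s := d.divisorsAntidiagonal.filter (fun x => x.1 < E)) (f := fun x => |v x.2|)
        (fun x _ => abs_nonneg _) k
      rw [← hk] at h8
      have h9 : ∀ x ∈ d.divisorsAntidiagonal.filter (fun x => x.1 < E), |v x.2| ^ p = v x.2 ^ p :=
        fun x _ => hpe.pow_abs _
      rw [Finset.sum_congr rfl h9] at h8
      have h10 : 0 ≤ ∑ x ∈ d.divisorsAntidiagonal.filter (fun x => x.1 < E), v x.2 ^ p :=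
        Finset.sum_nonneg fun x _ => hv0 _
      refine (pow_le_pow_left₀ hP0 h5 p).trans (h8.trans ?_)
      apply mul_le_mul_of_nonneg_right _ h10
      exact (pow_le_pow_left₀ (Nat.cast_nonneg _) hcard k).trans
        (pow_le_pow_right₀ hEpos (by omega))
    have h5 : ∑ x ∈ d.divisorsAntidiagonal, (if x.1 < E then C0 * v x.2 ^ p else 0) =
        C0 * ∑ x ∈ d.divisorsAntidiagonal.filter (fun x => x.1 < E), v x.2 ^ p := by
      rw [← Finset.sum_filter, Finset.mul_sum]
    rw [h5]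
    calc |(a d : ℝ)| ^ p ≤ (2 * P) ^ p := pow_le_pow_left₀ (abs_nonneg _) h3 p
      _ = 2 ^ p * P ^ p := by rw [mul_pow]
      _ ≤ 2 ^ p * ((E : ℝ) ^ p *
          ∑ x ∈ d.divisorsAntidiagonal.filter (fun x => x.1 < E), v x.2 ^ p) :=
          mul_le_mul_of_nonneg_left h4 (by positivity)
      _ = C0 * ∑ x ∈ d.divisorsAntidiagonal.filter (fun x => x.1 < E), v x.2 ^ p := by
          rw [hC0]; ring
  have hsumA : ∑ d ∈ Finset.Ico 1 n1, |(a d : ℝ)| ≤ S := by
    have h1 : ∀ d ∈ Finset.Ico 1 n1, |(a d : ℝ)| ≤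
        ∑ x ∈ d.divisorsAntidiagonal, (if x.1 < E then C0 * v x.2 ^ p else 0) := by
      intro d hd
      rw [Finset.mem_Ico] at hd
      refine le_trans ?_ (hB d hd.1 hd.2)
      by_cases h0 : a d = 0
      · rw [h0]
        simp only [Int.cast_zero, abs_zero]
        positivity
      · have h4 : (1 : ℝ) ≤ |(a d : ℝ)| := by
          have := Int.one_le_abs h0
          exact_mod_cast this
        calc |(a d : ℝ)| = |(a d : ℝ)| ^ 1 := (pow_one _).symm
          _ ≤ |(a d : ℝ)| ^ p := pow_le_pow_right₀ h4 (by omega)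
    refine (Finset.sum_le_sum h1).trans ?_
    refine (sum_anti_le n1 (fun x => if x.1 < E then C0 * v x.2 ^ p else 0)
      (fun x => ?_)).trans ?_
    · show 0 ≤ (if x.1 < E then C0 * v x.2 ^ p else 0)
      split_ifs
      · exact mul_nonneg hC00 (hv0 _)
      · exact le_refl 0
    rw [Finset.sum_product]
    have h2 : ∀ e ∈ Finset.Ico 1 n1, ∑ m ∈ Finset.Ico 1 n1, (if e < E then C0 * v m ^ p else 0) ≤
        if e < E then C0 * V else 0 := by
      intro e _
      split_ifs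
      · rw [← Finset.mul_sum]
        exact mul_le_mul_of_nonneg_left (H2' n1) hC00
      · simp
    refine (Finset.sum_le_sum h2).trans ?_
    rw [← Finset.sum_filter, Finset.sum_const, nsmul_eq_mul, hS]
    have h3 : ((Finset.Ico 1 n1).filter fun e => e < E).card ≤ E := by
      calc ((Finset.Ico 1 n1).filter fun e => e < E).card ≤ (Finset.range E).card := by
            apply Finset.card_le_card
            intro e he
            rw [Finset.mem_filter] at he
            exact Finset.mem_range.mpr he.2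
        _ = E := Finset.card_range E
    have h4 : (((Finset.Ico 1 n1).filter fun e => e < E).card : ℝ) ≤ E := by exact_mod_cast h3
    calc (((Finset.Ico 1 n1).filter fun e => e < E).card : ℝ) * (C0 * V) ≤ E * (C0 * V) :=
          mul_le_mul_of_nonneg_right h4 (mul_nonneg hC00 hV)
      _ = C0 * E * V := by ring
  -- the last step
  have hR : ∀ n : ℕ, 1 ≤ n → n < 2 * n1 → ((a n : ℝ) + γ n) ^ p ≤ 2 ^ (p - 1) * (v n ^ p +
      (S ^ 2) ^ (m - 1) * (S *
      ∑ x ∈ n.divisorsAntidiagonal, (if 1 < x.1 ∧ x.2 < n1 then |(a x.2 : ℝ)| * (((x.1 : ℝ)) ^ 2)⁻¹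
        else 0))) := by
    intro n hn hn1
    have hn0 : (0 : ℝ) < n := by exact_mod_cast hn
    have hmem : (1, n) ∈ n.divisorsAntidiagonal := by
      rw [Nat.mem_divisorsAntidiagonal]
      exact ⟨one_mul n, by omega⟩
    have h1 : ∑ x ∈ n.divisorsAntidiagonal, (a x.2 : ℝ) / x.1 = v n - γ n := by
      have h2 := H1 n hn
      rw [← Nat.sum_divisorsAntidiagonal' (fun _ m => (m : ℝ) * a m)] at h2
      have h3 : ∑ x ∈ n.divisorsAntidiagonal, (x.2 : ℝ) * a x.2 =
          n * ∑ x ∈ n.divisorsAntidiagonal, (a x.2 : ℝ) / x.1 := by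
        rw [Finset.mul_sum]
        refine Finset.sum_congr rfl fun x hx => ?_
        obtain ⟨h3, h4, h5, -, -⟩ := anti_facts hx
        have h6 : (0 : ℝ) < x.1 := by exact_mod_cast h3
        have h7 : (n : ℝ) = x.1 * x.2 := by rw [← h5]; push_cast; ring
        rw [h7]
        field_simp
      rw [h3] at h2
      exact mul_left_cancel₀ hn0.ne' h2
    rw [← Finset.add_sum_erase _ _ hmem] at h1
    obtain ⟨r, hr⟩ : ∃ r : ℝ, r = ∑ x ∈ n.divisorsAntidiagonal.erase (1, n), (a x.2 : ℝ) / x.1 :=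
      ⟨_, rfl⟩
    rw [← hr] at h1
    simp only [Nat.cast_one, div_one] at h1
    have h2 : (a n : ℝ) + γ n = v n - r := by linarith
    have hx1 : ∀ x ∈ n.divisorsAntidiagonal.erase (1, n), 1 < x.1 ∧ x.2 < n1 := by
      intro x hx
      rw [Finset.mem_erase] at hx
      obtain ⟨h3, h4, h5, -, -⟩ := anti_facts hx.2
      have h6 : x.1 ≠ 1 := by
        intro h
        apply hx.1
        rw [h, one_mul] at h5
        exact Prod.ext h h5
      have h7 : 2 ≤ x.1 := by omega
      have h8 : 2 * x.2 ≤ n := by rw [← h5]; exact Nat.mul_le_mul_right _ h7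
      omega
    have h3 : r ^ 2 ≤ (∑ x ∈ n.divisorsAntidiagonal.erase (1, n), |(a x.2 : ℝ)|) *
        ∑ x ∈ n.divisorsAntidiagonal.erase (1, n), |(a x.2 : ℝ)| * (((x.1 : ℝ)) ^ 2)⁻¹ := by
      rw [hr]
      apply Finset.sum_sq_le_sum_mul_sum_of_sq_le_mul
      · intro x _
        positivity
      · intro x _
        positivity
      · intro x _
        rw [div_pow, ← sq_abs (a x.2 : ℝ), div_eq_mul_inv]
        apply le_of_eq
        ring
    have h4 : ∑ x ∈ n.divisorsAntidiagonal.erase (1, n), |(a x.2 : ℝ)| ≤ S :=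
      (sum_snd_le n n1 _ (Finset.erase_subset _ _) (fun m => |(a m : ℝ)|)
        (fun m => abs_nonneg _) (fun x hx => (hx1 x hx).2)).trans hsumA
    have h5 : ∑ x ∈ n.divisorsAntidiagonal.erase (1, n), |(a x.2 : ℝ)| * (((x.1 : ℝ)) ^ 2)⁻¹ ≤
        ∑ x ∈ n.divisorsAntidiagonal, (if 1 < x.1 ∧ x.2 < n1 then
          |(a x.2 : ℝ)| * (((x.1 : ℝ)) ^ 2)⁻¹ else 0) := by
      have h6 : ∑ x ∈ n.divisorsAntidiagonal.erase (1, n), |(a x.2 : ℝ)| * (((x.1 : ℝ)) ^ 2)⁻¹ =
          ∑ x ∈ n.divisorsAntidiagonal.erase (1, n), (if 1 < x.1 ∧ x.2 < n1 then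
            |(a x.2 : ℝ)| * (((x.1 : ℝ)) ^ 2)⁻¹ else 0) :=
        Finset.sum_congr rfl fun x hx => by rw [if_pos (hx1 x hx)]
      rw [h6]
      apply Finset.sum_le_sum_of_subset_of_nonneg (Finset.erase_subset _ _)
      intro x _ _
      positivity
    have h6 : r ^ 2 ≤ S * ∑ x ∈ n.divisorsAntidiagonal, (if 1 < x.1 ∧ x.2 < n1 then
          |(a x.2 : ℝ)| * (((x.1 : ℝ)) ^ 2)⁻¹ else 0) :=
      h3.trans (mul_le_mul h4 h5 (Finset.sum_nonneg fun x _ => by positivity) hS0)
    have h7 : |r| ≤ S := by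
      rw [hr]
      refine (Finset.abs_sum_le_sum_abs _ _).trans (le_trans (Finset.sum_le_sum fun x hx => ?_) h4)
      rw [abs_div, Nat.abs_cast]
      have h8 : (1 : ℝ) ≤ x.1 := by exact_mod_cast (hx1 x hx).1.le
      exact div_le_self (abs_nonneg _) h8
    have h8 : r ^ 2 ≤ S ^ 2 := by
      rw [← sq_abs r]
      exact pow_le_pow_left₀ (abs_nonneg _) h7 2
    have h9 : r ^ p ≤ (S ^ 2) ^ (m - 1) * r ^ 2 := by
      have e1 : p = 2 * (m - 1) + 2 := by omega
      rw [e1, pow_add, pow_mul]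
      exact mul_le_mul_of_nonneg_right (pow_le_pow_left₀ (sq_nonneg _) h8 _) (sq_nonneg _)
    have h10 : (v n - r) ^ p ≤ 2 ^ (p - 1) * (v n ^ p + r ^ p) := by
      have h11 := hpe.add_pow_le (a := v n) (b := -r)
      rw [hpe.neg_pow, ← sub_eq_add_neg] at h11
      exact h11
    rw [h2]
    refine h10.trans (mul_le_mul_of_nonneg_left ?_ (by positivity))
    have h11 := mul_le_mul_of_nonneg_left h6 (pow_nonneg (sq_nonneg S) (m - 1))
    linarith
  refine (Finset.sum_le_sum fun n hn => hR n (Finset.mem_Ico.mp hn).1 (Finset.mem_Ico.mp hn).2).trans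
    ?_
  rw [← Finset.mul_sum, Finset.sum_add_distrib, ← Finset.mul_sum, ← Finset.mul_sum]
  have h1 := H2' (2 * n1)
  have h2 : ∑ n ∈ Finset.Ico 1 (2 * n1), ∑ x ∈ n.divisorsAntidiagonal,
      (if 1 < x.1 ∧ x.2 < n1 then |(a x.2 : ℝ)| * (((x.1 : ℝ)) ^ 2)⁻¹ else 0) ≤ S := by
    refine (sum_anti_le (2 * n1) (fun x => if 1 < x.1 ∧ x.2 < n1 then
      |(a x.2 : ℝ)| * (((x.1 : ℝ)) ^ 2)⁻¹ else 0) (fun x => by positivity)).trans ?_
    rw [Finset.sum_product]
    have h3 : ∀ e ∈ Finset.Ico 1 (2 * n1), ∑ m ∈ Finset.Ico 1 (2 * n1),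
        (if 1 < e ∧ m < n1 then |(a m : ℝ)| * (((e : ℝ)) ^ 2)⁻¹ else 0) ≤
        if 1 < e then S * (((e : ℝ)) ^ 2)⁻¹ else 0 := by
      intro e _
      by_cases he : 1 < e
      · rw [if_pos he]
        have h4 : ∑ m ∈ Finset.Ico 1 (2 * n1),
            (if 1 < e ∧ m < n1 then |(a m : ℝ)| * (((e : ℝ)) ^ 2)⁻¹ else 0) =
            (∑ m ∈ (Finset.Ico 1 (2 * n1)).filter (fun m => m < n1), |(a m : ℝ)|) *
              (((e : ℝ)) ^ 2)⁻¹ := by
          rw [Finset.sum_mul, Finset.sum_filter]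
          refine Finset.sum_congr rfl fun m _ => ?_
          simp [he]
        rw [h4]
        apply mul_le_mul_of_nonneg_right _ (by positivity)
        refine le_trans ?_ hsumA
        apply Finset.sum_le_sum_of_subset_of_nonneg
        · intro m hm
          rw [Finset.mem_filter, Finset.mem_Ico] at hm
          rw [Finset.mem_Ico]
          exact ⟨hm.1.1, hm.2⟩
        · intro m _ _
          positivity
      · rw [if_neg he]
        apply le_of_eq
        apply Finset.sum_eq_zero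
        intro m _
        simp [he]
    refine (Finset.sum_le_sum h3).trans ?_
    rw [← Finset.sum_filter, ← Finset.mul_sum]
    have h5 : ∑ e ∈ (Finset.Ico 1 (2 * n1)).filter (fun e => 1 < e), (((e : ℝ)) ^ 2)⁻¹ ≤ 1 := by
      have h6 : (Finset.Ico 1 (2 * n1)).filter (fun e => 1 < e) = Finset.Ioo 1 (2 * n1) := by
        ext e
        rw [Finset.mem_filter, Finset.mem_Ico, Finset.mem_Ioo]
        omega
      rw [h6]
      refine (sum_Ioo_inv_sq_le 1 (2 * n1)).trans ?_
      norm_num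
    calc S * ∑ e ∈ (Finset.Ico 1 (2 * n1)).filter (fun e => 1 < e), (((e : ℝ)) ^ 2)⁻¹ ≤ S * 1 :=
          mul_le_mul_of_nonneg_left h5 hS0
      _ = S := mul_one S
  have h3 := mul_le_mul_of_nonneg_left (mul_le_mul_of_nonneg_left h2 hS0)
    (pow_nonneg (sq_nonneg S) (m - 1))
  apply mul_le_mul_of_nonneg_left _ (by positivity)
  linarith

end Pool.Agent.Helper34.SLM
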